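import Pool.Agent.Helper21.WD.Stmts

set_option autoImplicit false

/-! # T13, module ALG: idempotents in algebras normalised by an irreducible set -/

open Matrix Polynomial

namespace MT

section

variable {K : Type} [Field K] {I : Type} [Fintype I] [DecidableEq I]

theorem alg_trX (M : Matrix I I K) (h : ∀ k, 0 < k → (M ^ k).trace = 0)
    (P : K[X]) : (aeval M (P * X)).trace = 0 := by
  induction P using Polynomial.induction_on' with
  | add p q hp hq => rw [add_mul, map_add, Matrix.trace_add, hp, hq, add_zero]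
  | monomial n a =>
    rw [← Polynomial.C_mul_X_pow_eq_monomial, mul_assoc, ← pow_succ, map_mul, aeval_C, map_pow,
      aeval_X, ← Algebra.smul_def, Matrix.trace_smul, h _ (Nat.succ_pos n), smul_zero]

theorem alg_nil1 [CharZero K] (M : Matrix I I K)
    (h : ∀ k, 0 < k → (M ^ k).trace = 0) : IsNilpotent M := by
  obtain ⟨q, hq, hnd⟩ := exists_eq_pow_rootMultiplicity_mul_and_not_dvd M.charpoly
    M.charpoly_monic.ne_zero 0
  set r := rootMultiplicity 0 M.charpoly with hr
  rw [C_0, sub_zero] at hq hnd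
  have hcop : IsCoprime (X ^ (r + 1)) q :=
    IsCoprime.pow_left ((Polynomial.irreducible_X (R := K)).coprime_iff_not_dvd.mpr hnd)
  obtain ⟨u, v, huv⟩ := hcop
  set E := aeval M (u * X ^ (r + 1)) with hE
  have h1E : 1 - E = aeval M (v * q) := by
    rw [hE, sub_eq_iff_eq_add, ← map_add, add_comm, huv, map_one]
  have hEE : E * (1 - E) = 0 := by
    rw [h1E, hE, ← map_mul]
    have : u * X ^ (r + 1) * (v * q) = u * v * X * M.charpoly := by
      conv_rhs => rw [hq]
      ring
    rw [this, map_mul, Matrix.aeval_self_charpoly, mul_zero]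
  have hidem : E * E = E := by
    rw [mul_sub, mul_one, sub_eq_zero] at hEE
    exact hEE.symm
  have htr : E.trace = 0 := by
    have : u * X ^ (r + 1) = u * X ^ r * X := by ring
    rw [hE, this]
    exact alg_trX M h _
  have hE0 : E = 0 := by
    have h1 : IsIdempotentElem (Matrix.toLin' E) := by
      show Matrix.toLin' E * Matrix.toLin' E = Matrix.toLin' E
      rw [Module.End.mul_eq_comp, ← Matrix.toLin'_mul, hidem]
    have h2 : LinearMap.trace K (I → K) (Matrix.toLin' E) = 0 := by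
      rw [Matrix.trace_toLin'_eq]; exact htr
    have h3 := (LinearMap.IsIdempotentElem.trace_eq_zero_iff h1).mp h2
    exact (Matrix.toLin'.map_eq_zero_iff).mp h3
  rw [hE0, sub_zero] at h1E
  have h5 : X ^ r * (v * q) = v * M.charpoly := by
    conv_rhs => rw [hq]
    ring
  have h6 : aeval M (X ^ r * (v * q)) = M ^ r * aeval M (v * q) := by
    rw [map_mul (aeval M) (X ^ r), map_pow, aeval_X]
  have h7 : aeval M (v * M.charpoly) = 0 := by
    rw [map_mul, Matrix.aeval_self_charpoly, mul_zero]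
  rw [h5, h7, ← h1E, mul_one] at h6
  exact ⟨r, h6.symm⟩

theorem alg_nil2 [CharZero K] (M : Matrix I I K)
    (h : ∀ k, (M * M ^ (k + 1)).trace = 0) : IsNilpotent M := by
  have h1 : IsNilpotent (M ^ 2) := by
    refine alg_nil1 _ fun k hk => ?_
    rw [← pow_mul]
    obtain ⟨j, rfl⟩ : ∃ j, k = j + 1 := ⟨k - 1, by omega⟩
    rw [show 2 * (j + 1) = (2 * j + 1) + 1 by ring, pow_succ']
    exact h (2 * j)
  exact h1.of_pow

/-- the evaluation map -/
def algEv (v : I → K) : Matrix I I K →ₗ[K] (I → K) where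
  toFun a := a *ᵥ v
  map_add' a b := Matrix.add_mulVec a b v
  map_smul' c a := Matrix.smul_mulVec c a v

theorem alg_ker (G : Submodule K (Matrix I I K)) (hmul : ∀ a ∈ G, ∀ b ∈ G, a * b ∈ G)
    (hnil : ∀ a ∈ G, IsNilpotent a) (v0 : I → K) (hv0 : v0 ≠ 0) :
    ∃ v : I → K, v ≠ 0 ∧ ∀ a ∈ G, a *ᵥ v = 0 := by
  classical
  set f : (I → K) → ℕ := fun v => Module.finrank K ↥(G.map (algEv v)) with hf
  have hex : ∃ n, ∃ v, v ≠ 0 ∧ f v = n := ⟨_, v0, hv0, rfl⟩
  obtain ⟨v, hv, hfv⟩ := Nat.find_spec hex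
  have hmin : ∀ w, w ≠ 0 → f v ≤ f w := by
    intro w hw
    rw [hfv]
    exact Nat.find_min' hex ⟨w, hw, rfl⟩
  refine ⟨v, hv, fun a ha => ?_⟩
  by_contra hav
  have hle : G.map (algEv (a *ᵥ v)) ≤ G.map (algEv v) := by
    rintro _ ⟨b, hb, rfl⟩
    refine ⟨b * a, hmul b hb a ha, ?_⟩
    show (b * a) *ᵥ v = b *ᵥ (a *ᵥ v)
    rw [Matrix.mulVec_mulVec]
  have heq2 := Submodule.eq_of_le_of_finrank_le hle (hmin _ hav)
  have hmem : a *ᵥ v ∈ G.map (algEv (a *ᵥ v)) := by
    rw [heq2]
    exact ⟨a, ha, rfl⟩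
  obtain ⟨b, hb, hbw⟩ := hmem
  set w := a *ᵥ v with hw
  have hbw' : b *ᵥ w = w := hbw
  have h1 : ∀ k : ℕ, (b ^ k) *ᵥ w = w := by
    intro k
    induction k with
    | zero => simp
    | succ k ih => rw [pow_succ, ← Matrix.mulVec_mulVec, hbw', ih]
  obtain ⟨n, hn⟩ := hnil b hb
  have h3 := h1 n
  rw [hn, Matrix.zero_mulVec] at h3
  exact hav h3.symm

/-- the common kernel -/
def algKer (G : Submodule K (Matrix I I K)) : Submodule K (I → K) where
  carrier := {v | ∀ a ∈ G, a *ᵥ v = 0}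
  add_mem' := by
    intro v w hv hw a ha
    rw [Matrix.mulVec_add, hv a ha, hw a ha, add_zero]
  zero_mem' := fun a _ => Matrix.mulVec_zero a
  smul_mem' := by
    intro c v hv a ha
    rw [Matrix.mulVec_smul, hv a ha, smul_zero]

theorem algKer_stable (G : Submodule K (Matrix I I K)) (L : Set (Matrix I I K))
    (hG : ∀ z ∈ L, ∀ x ∈ G, z * x - x * z ∈ G) :
    ∀ z ∈ L, ∀ v ∈ algKer G, z *ᵥ v ∈ algKer G := by
  intro z hz v hv a ha
  have h1 : (z * a - a * z) *ᵥ v = 0 := hv _ (hG z hz a ha)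
  rw [Matrix.sub_mulVec, ← Matrix.mulVec_mulVec, ← Matrix.mulVec_mulVec, hv a ha,
    Matrix.mulVec_zero, zero_sub, neg_eq_zero] at h1
  exact h1

theorem alg_span (G : Submodule K (Matrix I I K)) (L : Set (Matrix I I K))
    (hG : ∀ z ∈ L, ∀ x ∈ G, z * x - x * z ∈ G)
    (hirr : ∀ U : Submodule K (I → K), (∀ z ∈ L, ∀ v ∈ U, z.mulVec v ∈ U) → U = ⊥ ∨ U = ⊤)
    (hne : ∃ x ∈ G, x ≠ 0) :
    (∀ v : I → K, v ∈ Submodule.span K {u | ∃ x ∈ G, ∃ u' : I → K, u = x.mulVec u'}) ∧
      (∀ v : I → K, (∀ x ∈ G, x.mulVec v = 0) → v = 0) := by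
  obtain ⟨x0, hx0, hx0n⟩ := hne
  obtain ⟨v0, hv0⟩ : ∃ v0 : I → K, x0 *ᵥ v0 ≠ 0 := by
    by_contra hcon
    push Not at hcon
    apply hx0n
    apply Matrix.toLin'.injective
    rw [map_zero]
    exact LinearMap.ext fun v => by rw [Matrix.toLin'_apply, hcon v]; rfl
  constructor
  · have hst : ∀ z ∈ L, ∀ v ∈ Submodule.span K {u | ∃ x ∈ G, ∃ u' : I → K, u = x.mulVec u'},
        z.mulVec v ∈ Submodule.span K {u | ∃ x ∈ G, ∃ u' : I → K, u = x.mulVec u'} := by
      intro z hz v hv
      induction hv using Submodule.span_induction with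
      | mem v hv =>
        obtain ⟨x, hx, u', rfl⟩ := hv
        have h1 : z *ᵥ (x *ᵥ u') = (z * x - x * z) *ᵥ u' + x *ᵥ (z *ᵥ u') := by
          rw [Matrix.sub_mulVec, Matrix.mulVec_mulVec, Matrix.mulVec_mulVec, sub_add_cancel]
        rw [h1]
        exact Submodule.add_mem _ (Submodule.subset_span ⟨_, hG z hz x hx, u', rfl⟩)
          (Submodule.subset_span ⟨x, hx, _, rfl⟩)
      | zero => rw [Matrix.mulVec_zero]; exact Submodule.zero_mem _
      | add v w _ _ hv hw => rw [Matrix.mulVec_add]; exact Submodule.add_mem _ hv hw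
      | smul c v _ hv => rw [Matrix.mulVec_smul]; exact Submodule.smul_mem _ c hv
    rcases hirr _ hst with h | h
    · exfalso
      apply hv0
      have h2 : x0 *ᵥ v0 ∈ Submodule.span K {u | ∃ x ∈ G, ∃ u' : I → K, u = x.mulVec u'} :=
        Submodule.subset_span ⟨x0, hx0, v0, rfl⟩
      rw [h] at h2
      exact (Submodule.mem_bot K).mp h2
    · intro v
      rw [h]
      exact Submodule.mem_top
  · rcases hirr _ (algKer_stable G L hG) with h | h
    · intro v hv
      have h2 : v ∈ algKer G := hv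
      rw [h] at h2
      exact (Submodule.mem_bot K).mp h2
    · exfalso
      have h2 : v0 ∈ algKer G := by rw [h]; exact Submodule.mem_top
      exact hv0 (h2 x0 hx0)

theorem alg_trace [CharZero K] (F : Submodule K (Matrix I I K)) (L : Set (Matrix I I K))
    (hmul : ∀ x ∈ F, ∀ y ∈ F, x * y ∈ F) (hG : ∀ z ∈ L, ∀ x ∈ F, z * x - x * z ∈ F)
    (hirr : ∀ U : Submodule K (I → K), (∀ z ∈ L, ∀ v ∈ U, z.mulVec v ∈ U) → U = ⊥ ∨ U = ⊤)
    (x : Matrix I I K) (hx : x ∈ F) (htr : ∀ y ∈ F, (x * y).trace = 0) : x = 0 := by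
  classical
  set J : Submodule K (Matrix I I K) :=
    { carrier := {x | x ∈ F ∧ ∀ y ∈ F, (x * y).trace = 0}
      add_mem' := by
        rintro a b ⟨ha, ha'⟩ ⟨hb, hb'⟩
        refine ⟨F.add_mem ha hb, fun y hy => ?_⟩
        rw [add_mul, Matrix.trace_add, ha' y hy, hb' y hy, add_zero]
      zero_mem' := ⟨F.zero_mem, fun y _ => by rw [zero_mul, Matrix.trace_zero]⟩
      smul_mem' := by
        rintro c a ⟨ha, ha'⟩
        refine ⟨F.smul_mem c ha, fun y hy => ?_⟩
        rw [Matrix.smul_mul, Matrix.trace_smul, ha' y hy, smul_zero] } with hJ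
  have hJm : ∀ a ∈ J, ∀ b ∈ J, a * b ∈ J := by
    rintro a ⟨ha, ha'⟩ b ⟨hb, hb'⟩
    refine ⟨hmul a ha b hb, fun y hy => ?_⟩
    rw [mul_assoc]
    exact ha' _ (hmul b hb y hy)
  have hJL : ∀ z ∈ L, ∀ a ∈ J, z * a - a * z ∈ J := by
    rintro z hz a ⟨ha, ha'⟩
    refine ⟨hG z hz a ha, fun y hy => ?_⟩
    have h1 := ha' _ (hG z hz y hy)
    rw [mul_sub, Matrix.trace_sub, ← mul_assoc, ← mul_assoc] at h1
    rw [sub_mul, Matrix.trace_sub, mul_assoc z a y, Matrix.trace_mul_comm z (a * y)]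
    have h2 : (a * y * z).trace = (a * z * y).trace := (sub_eq_zero.mp h1).symm
    rw [h2, sub_self]
  have hJn : ∀ a ∈ J, IsNilpotent a := by
    rintro a ⟨ha, ha'⟩
    refine alg_nil2 a fun k => ha' _ ?_
    induction k with
    | zero => simpa using ha
    | succ k ih => rw [pow_succ]; exact hmul _ ih a ha
  by_contra hx0
  have hxJ : x ∈ J := ⟨hx, htr⟩
  obtain ⟨v0, hv0⟩ : ∃ v0 : I → K, x *ᵥ v0 ≠ 0 := by
    by_contra hcon
    push Not at hcon
    apply hx0
    apply Matrix.toLin'.injective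
    rw [map_zero]
    exact LinearMap.ext fun v => by rw [Matrix.toLin'_apply, hcon v]; rfl
  have hv00 : v0 ≠ 0 := by
    rintro rfl
    exact hv0 (Matrix.mulVec_zero x)
  obtain ⟨v, hv, hvk⟩ := alg_ker J hJm hJn v0 hv00
  exact hv ((alg_span J L hJL hirr ⟨x, hxJ, hx0⟩).2 v hvk)

theorem alg_rank (y p : Matrix I I K) (hy : ∀ v, p *ᵥ v = 0 → y *ᵥ v = 0)
    (w : I → K) (hw : y *ᵥ w = 0) (hpw : p *ᵥ w ≠ 0) : y.rank < p.rank := by
  have h1 : LinearMap.ker p.mulVecLin < LinearMap.ker y.mulVecLin := by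
    refine lt_of_le_of_ne (fun v hv => hy v hv) fun heq => ?_
    have h2 : w ∈ LinearMap.ker p.mulVecLin := by
      rw [heq]; exact hw
    exact hpw h2
  have h3 := Submodule.finrank_lt_finrank_of_lt h1
  have h4 := LinearMap.finrank_range_add_finrank_ker p.mulVecLin
  have h5 := LinearMap.finrank_range_add_finrank_ker y.mulVecLin
  unfold Matrix.rank
  omega

end

theorem st_ALG : ST_ALG := by
  intro K _ _ _ I _ _ F L hmul hL hirr hF
  classical
  obtain ⟨x0, hx0, hx0n⟩ := F.exists_mem_ne_zero_of_ne_bot hF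
  -- an element of minimal rank
  have hex : ∃ n, ∃ x ∈ F, x ≠ 0 ∧ x.rank = n := ⟨_, x0, hx0, hx0n, rfl⟩
  obtain ⟨p0, hp0, hp0n, hp0r⟩ := Nat.find_spec hex
  have hmin : ∀ x ∈ F, x ≠ 0 → p0.rank ≤ x.rank := by
    intro x hx hxn
    rw [hp0r]
    exact Nat.find_min' hex ⟨x, hx, hxn, rfl⟩
  obtain ⟨g, hg, hgt⟩ : ∃ g ∈ F, (p0 * g).trace ≠ 0 := by
    by_contra hcon
    push Not at hcon
    exact hp0n (alg_trace F L hmul hL hirr p0 hp0 hcon)
  set p := p0 * g with hp
  have hpF : p ∈ F := hmul p0 hp0 g hg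
  have hpn : ¬ IsNilpotent p := fun h =>
    hgt (Matrix.isNilpotent_trace_of_isNilpotent h).eq_zero
  have hpr : ∀ x ∈ F, x.rank < p.rank → x = 0 := by
    intro x hx hlt
    by_contra hxn
    have h1 := hmin x hx hxn
    have h2 : p.rank ≤ p0.rank := Matrix.rank_mul_le_left p0 g
    omega
  have hppF : p * p ∈ F := hmul p hpF p hpF
  -- `p` is injective on its range
  have hinj : ∀ w : I → K, p *ᵥ (p *ᵥ w) = 0 → p *ᵥ w = 0 := by
    intro w hw
    by_contra hpw
    have h1 : p * p = 0 := by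
      refine hpr _ hppF (alg_rank (p * p) p (fun v hv => ?_) w ?_ hpw)
      · rw [← Matrix.mulVec_mulVec, hv, Matrix.mulVec_zero]
      · rw [← Matrix.mulVec_mulVec, hw]
    exact hpn ⟨2, by rw [pow_two, h1]⟩
  have hp0 : p ≠ 0 := by
    intro h
    exact hpn ⟨1, by rw [pow_one, h]⟩
  set U : Submodule K (I → K) := LinearMap.range p.mulVecLin with hU
  have hpU : ∀ u : I → K, p.mulVecLin u ∈ U := fun u => ⟨u, rfl⟩
  have hUn : Nontrivial U := by
    obtain ⟨v, hv⟩ : ∃ v : I → K, p *ᵥ v ≠ 0 := by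
      by_contra hcon
      push Not at hcon
      apply hp0
      apply Matrix.toLin'.injective
      rw [map_zero]
      exact LinearMap.ext fun v => by rw [Matrix.toLin'_apply, hcon v]; rfl
    exact ⟨⟨⟨p *ᵥ v, v, rfl⟩, 0, fun h => hv (congrArg Subtype.val h)⟩⟩
  set P : U →ₗ[K] U := p.mulVecLin.restrict (fun u _ => hpU u) with hP
  have hPinj : Function.Injective P := by
    rw [injective_iff_map_eq_zero]
    rintro ⟨u, w, rfl⟩ hu
    have h1 : p *ᵥ (p *ᵥ w) = 0 := congrArg Subtype.val hu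
    exact Subtype.ext (hinj w h1)
  -- `p x p` is a multiple of `p p`
  have key : ∀ x ∈ F, ∃ c : K, p * x * p = c • (p * p) := by
    intro x hx
    set X : U →ₗ[K] U := ((p * x).mulVecLin).restrict (fun u _ => by
      rw [Matrix.mulVecLin_mul]
      exact hpU _) with hX
    set e := LinearEquiv.ofInjectiveEndo P hPinj with he
    obtain ⟨c, hc⟩ := Module.End.exists_eigenvalue (e.symm.toLinearMap ∘ₗ X)
    obtain ⟨u, hu⟩ := hc.exists_hasEigenvector
    have h1 : e.symm (X u) = c • u := hu.apply_eq_smul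
    have h2 : X u = c • P u := by
      have h3 := congrArg e h1
      rw [LinearEquiv.apply_symm_apply, map_smul] at h3
      exact h3
    obtain ⟨⟨_, w, rfl⟩, hu0⟩ : ∃ u' : U, u' = u := ⟨u, rfl⟩
    have hw0 : p *ᵥ w ≠ 0 := by
      intro h
      apply hu.2
      rw [← hu0]
      exact Subtype.ext h
    have h4 : (p * x) *ᵥ (p *ᵥ w) = c • (p *ᵥ (p *ᵥ w)) := by
      rw [← hu0] at h2
      exact congrArg Subtype.val h2
    refine ⟨c, ?_⟩
    have h5 : p * x * p - c • (p * p) ∈ F :=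
      F.sub_mem (hmul _ (hmul p hpF x hx) p hpF) (F.smul_mem c hppF)
    have h6 : p * x * p - c • (p * p) = 0 := by
      refine hpr _ h5 (alg_rank _ p (fun v hv => ?_) w ?_ hw0)
      · have ha : (p * x * p) *ᵥ v = 0 := by
          rw [← Matrix.mulVec_mulVec, hv, Matrix.mulVec_zero]
        have hb : (p * p) *ᵥ v = 0 := by
          rw [← Matrix.mulVec_mulVec, hv, Matrix.mulVec_zero]
        rw [Matrix.sub_mulVec, Matrix.smul_mulVec, ha, hb, smul_zero, sub_zero]
      · have ha : (p * x * p) *ᵥ w = c • (p *ᵥ (p *ᵥ w)) := by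
          rw [← Matrix.mulVec_mulVec w (p * x) p, h4]
        rw [Matrix.sub_mulVec, Matrix.smul_mulVec, ha, Matrix.mulVec_mulVec, sub_self]
    exact sub_eq_zero.mp h6
  obtain ⟨μ, hμ⟩ := key p hpF
  have hp3 : p * (p * p) = μ • (p * p) := by rw [← mul_assoc]; exact hμ
  have hμ0 : μ ≠ 0 := by
    rintro rfl
    apply hpn
    refine ⟨3, ?_⟩
    rw [pow_succ, pow_two, hμ, zero_smul]
  have hp4 : p * p * (p * p) = (μ * μ) • (p * p) := by
    rw [mul_assoc, hp3, Matrix.mul_smul, hp3, smul_smul]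
  have hpp0 : p * p ≠ 0 := by
    intro h
    exact hpn ⟨2, by rw [pow_two, h]⟩
  set f : Matrix I I K := (μ * μ)⁻¹ • (p * p) with hf
  have hfF : f ∈ F := F.smul_mem _ hppF
  have hμμ : μ * μ ≠ 0 := mul_ne_zero hμ0 hμ0
  have hff : f * f = f := by
    rw [hf, Matrix.smul_mul, Matrix.mul_smul, hp4, smul_smul, smul_smul, mul_assoc,
      inv_mul_cancel₀ hμμ, mul_one]
  have hf0 : f ≠ 0 := smul_ne_zero (inv_ne_zero hμμ) hpp0
  refine ⟨f, hfF, hff, hf0, fun x hx => ?_, ?_⟩
  · obtain ⟨c, hc⟩ := key x hx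
    refine ⟨c, ?_⟩
    have h1 : p * p * x * (p * p) = c • ((μ * μ) • (p * p)) := by
      have : p * p * x * (p * p) = p * (p * x * p) * p := by noncomm_ring
      rw [this, hc, Matrix.mul_smul, Matrix.smul_mul, ← hp4]
      congr 1
      noncomm_ring
    rw [hf, Matrix.smul_mul, Matrix.smul_mul, Matrix.mul_smul, h1]
    simp only [smul_smul]
    congr 1
    field_simp
  · -- the ideal generated by `f`
    set G : Submodule K (Matrix I I K) :=
      Submodule.span K {a | ∃ x ∈ F, ∃ y ∈ F, a = x * f * y} with hG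
    have hGL : ∀ z ∈ L, ∀ a ∈ G, z * a - a * z ∈ G := by
      intro z hz a ha
      induction ha using Submodule.span_induction with
      | mem a ha =>
        obtain ⟨x, hx, y, hy, rfl⟩ := ha
        have h1 : z * (x * f * y) - x * f * y * z =
            (z * x - x * z) * f * y + x * (z * f - f * z) * f * y +
              x * f * ((z * f - f * z) * y) + x * f * (z * y - y * z) := by
          have h2 : x * (z * f - f * z) * f * y + x * f * ((z * f - f * z) * y) =
              x * (z * (f * f) - (f * f) * z) * y := by noncomm_ring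
          rw [add_assoc ((z * x - x * z) * f * y), h2, hff]
          noncomm_ring
        rw [h1]
        refine G.add_mem (G.add_mem (G.add_mem ?_ ?_) ?_) ?_
        · exact Submodule.subset_span ⟨_, hL z hz x hx, y, hy, rfl⟩
        · exact Submodule.subset_span ⟨_, hmul x hx _ (hL z hz f hfF), y, hy, rfl⟩
        · exact Submodule.subset_span ⟨x, hx, _, hmul _ (hL z hz f hfF) y hy, rfl⟩
        · exact Submodule.subset_span ⟨x, hx, _, hL z hz y hy, rfl⟩
      | zero => rw [mul_zero, zero_mul, sub_zero]; exact G.zero_mem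
      | add a b _ _ ha hb =>
        have : z * (a + b) - (a + b) * z = (z * a - a * z) + (z * b - b * z) := by noncomm_ring
        rw [this]
        exact G.add_mem ha hb
      | smul c a _ ha =>
        have : z * (c • a) - (c • a) * z = c • (z * a - a * z) := by
          rw [Matrix.mul_smul, Matrix.smul_mul, smul_sub]
        rw [this]
        exact G.smul_mem c ha
    have hfG : f ∈ G := Submodule.subset_span ⟨f, hfF, f, hfF, by rw [hff, hff]⟩
    obtain ⟨h1, h2⟩ := alg_span G L hGL hirr ⟨f, hfG, hf0⟩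
    constructor
    · intro v
      refine Submodule.span_le.mpr ?_ (h1 v)
      rintro _ ⟨a, ha, u', rfl⟩
      show a *ᵥ u' ∈ Submodule.span K {u | ∃ x ∈ F, ∃ u' : I → K, u = (x * f).mulVec u'}
      induction ha using Submodule.span_induction with
      | mem a ha =>
        obtain ⟨x, hx, y, hy, rfl⟩ := ha
        refine Submodule.subset_span ⟨x, hx, y *ᵥ u', ?_⟩
        rw [Matrix.mulVec_mulVec]
      | zero => rw [Matrix.zero_mulVec]; exact Submodule.zero_mem _
      | add a b _ _ ha hb => rw [Matrix.add_mulVec]; exact Submodule.add_mem _ ha hb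
      | smul c a _ ha => rw [Matrix.smul_mulVec]; exact Submodule.smul_mem _ c ha
    · intro v hv
      apply h2 v
      intro a ha
      induction ha using Submodule.span_induction with
      | mem a ha =>
        obtain ⟨x, hx, y, hy, rfl⟩ := ha
        rw [mul_assoc, ← Matrix.mulVec_mulVec, hv y hy, Matrix.mulVec_zero]
      | zero => rw [Matrix.zero_mulVec]
      | add a b _ _ ha hb => rw [Matrix.add_mulVec, ha, hb, add_zero]
      | smul c a _ ha => rw [Matrix.smul_mulVec, ha, smul_zero]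

end MT
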