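import Pool.Agent.Helper21.WD.StmtsQ

/-!
TNN1: eigenvalues of a pencil of rational quadratic forms.
-/

set_option autoImplicit false

namespace MT

open Polynomial Matrix

/-- A quadratic form in factored shape. -/
theorem tnn_form {R : Type} [CommRing R] {n m : ℕ} (S : Finset (Fin n)) (W : Fin n → Fin m → R)
    (u v : Fin m → R) :
    ∑ s, v s * (∑ t, (∑ j ∈ S, W j s * W j t) * u t) =
      ∑ j ∈ S, (∑ s, W j s * v s) * (∑ t, W j t * u t) := by
  have h1 : ∀ s, ∑ t, (∑ j ∈ S, W j s * W j t) * u t = ∑ j ∈ S, W j s * ∑ t, W j t * u t := by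
    intro s
    simp only [Finset.sum_mul, Finset.mul_sum]
    rw [Finset.sum_comm]
    refine Finset.sum_congr rfl fun j _ => Finset.sum_congr rfl fun t _ => by ring
  simp only [h1, Finset.mul_sum (s := S), Finset.sum_mul (s := Finset.univ)]
  rw [Finset.sum_comm]
  refine Finset.sum_congr rfl fun j _ => Finset.sum_congr rfl fun s _ => by ring

/-- The complex eigenvalues of the pencil. -/
theorem tnn_pencil {n m : ℕ} (T : Finset (Fin n)) (W : Fin n → Fin m → ℚ)
    (hW : ∀ v : Fin m → ℚ, (∀ j, ∑ s, W j s * v s = 0) → v = 0) (z : ℂ)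
    (hz : (Matrix.of fun s t : Fin m => (∑ j ∈ T, (W j s : ℂ) * (W j t : ℂ)) -
      z * ∑ j, (W j s : ℂ) * (W j t : ℂ)).det = 0) : z.im = 0 ∧ 0 ≤ z.re := by
  classical
  obtain ⟨u, hu0, hu⟩ := Matrix.exists_mulVec_eq_zero_iff.2 hz
  set g : Fin n → ℂ := fun j => ∑ s, (W j s : ℂ) * u s with hg
  have hgc : ∀ j, ∑ s, (W j s : ℂ) * (starRingEnd ℂ) (u s) = (starRingEnd ℂ) (g j) := by
    intro j
    simp only [hg, map_sum, map_mul, map_ratCast]
  have hq : ∀ S : Finset (Fin n), ∑ s, (starRingEnd ℂ) (u s) *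
      (∑ t, (∑ j ∈ S, (W j s : ℂ) * (W j t : ℂ)) * u t) =
        ((∑ j ∈ S, Complex.normSq (g j) : ℝ) : ℂ) := by
    intro S
    rw [tnn_form S (fun j s => (W j s : ℂ)) u (fun s => (starRingEnd ℂ) (u s)), Complex.ofReal_sum]
    refine Finset.sum_congr rfl fun j _ => ?_
    rw [hgc j, Complex.normSq_eq_conj_mul_self]
  have key : ((∑ j ∈ T, Complex.normSq (g j) : ℝ) : ℂ) =
      z * ((∑ j, Complex.normSq (g j) : ℝ) : ℂ) := by
    rw [← hq T, ← hq Finset.univ, Finset.mul_sum, ← sub_eq_zero, ← Finset.sum_sub_distrib]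
    refine Finset.sum_eq_zero fun s _ => ?_
    have h2 := congrFun hu s
    simp only [Matrix.mulVec, dotProduct, Matrix.of_apply, Pi.zero_apply, sub_mul,
      Finset.sum_sub_distrib] at h2
    rw [show z * ((starRingEnd ℂ) (u s) * ∑ t, (∑ j, (W j s : ℂ) * (W j t : ℂ)) * u t) =
      (starRingEnd ℂ) (u s) * ∑ t, z * (∑ j, (W j s : ℂ) * (W j t : ℂ)) * u t by
        rw [Finset.mul_sum, Finset.mul_sum, Finset.mul_sum]
        refine Finset.sum_congr rfl fun t _ => by ring, ← mul_sub, h2, mul_zero]
  -- the total form is positive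
  have hpos : 0 < ∑ j, Complex.normSq (g j) := by
    by_contra hcon
    have h0 : ∀ j, g j = 0 := by
      intro j
      have h1 : ∑ j, Complex.normSq (g j) = 0 :=
        le_antisymm (not_lt.1 hcon) (Finset.sum_nonneg fun j _ => Complex.normSq_nonneg _)
      exact Complex.normSq_eq_zero.1
        ((Finset.sum_eq_zero_iff_of_nonneg fun j _ => Complex.normSq_nonneg _).1 h1 j
          (Finset.mem_univ j))
    -- the Gram matrix over ℚ is invertible
    set B : Matrix (Fin m) (Fin m) ℚ := Matrix.of fun s t => ∑ j, W j s * W j t with hB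
    have hdet : B.det ≠ 0 := by
      intro hd
      obtain ⟨v, hv0, hv⟩ := Matrix.exists_mulVec_eq_zero_iff.2 hd
      apply hv0
      apply hW
      have h3 : ∑ j, (∑ s, W j s * v s) * (∑ t, W j t * v t) = 0 := by
        rw [← tnn_form Finset.univ W v v]
        refine Finset.sum_eq_zero fun s _ => ?_
        have h4 := congrFun hv s
        simp only [Matrix.mulVec, dotProduct, hB, Matrix.of_apply, Pi.zero_apply] at h4
        rw [h4, mul_zero]
      intro j
      have h5 := (Finset.sum_eq_zero_iff_of_nonneg fun j _ => mul_self_nonneg _).1 h3 j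
        (Finset.mem_univ j)
      exact mul_self_eq_zero.1 h5
    have hdetC : (B.map (algebraMap ℚ ℂ)).det ≠ 0 := by
      rw [← RingHom.mapMatrix_apply, ← RingHom.map_det]
      simpa using hdet
    apply hdetC
    refine Matrix.exists_mulVec_eq_zero_iff.1 ⟨u, hu0, ?_⟩
    funext s
    simp only [Matrix.mulVec, dotProduct, Matrix.map_apply, hB, Matrix.of_apply, Pi.zero_apply,
      map_sum, map_mul, eq_ratCast]
    have h1 : ∑ t, (∑ j, (W j s : ℂ) * (W j t : ℂ)) * u t = ∑ j, (W j s : ℂ) * g j := by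
      simp only [hg, Finset.sum_mul, Finset.mul_sum]
      rw [Finset.sum_comm]
      refine Finset.sum_congr rfl fun j _ => Finset.sum_congr rfl fun t _ => by ring
    rw [h1]
    simp [h0]
  have h1 : z = (((∑ j ∈ T, Complex.normSq (g j)) / ∑ j, Complex.normSq (g j) : ℝ) : ℂ) := by
    rw [Complex.ofReal_div, key, mul_div_cancel_right₀]
    exact_mod_cast hpos.ne'
  rw [h1]
  refine ⟨Complex.ofReal_im _, ?_⟩
  rw [Complex.ofReal_re]
  exact div_nonneg (Finset.sum_nonneg fun j _ => Complex.normSq_nonneg _) hpos.le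

theorem st_TNN1 : ST_TNN1 := by
  intro K _ _ n T w ρ hw0 hf
  classical
  set M : Submodule ℚ K := Submodule.span ℚ (Set.range w) with hM
  have hfd : FiniteDimensional ℚ M := FiniteDimensional.span_of_finite ℚ (Set.finite_range w)
  set b := Module.finBasis ℚ M with hb
  set m := Module.finrank ℚ M with hm
  have hwM : ∀ j, w j ∈ M := fun j => Submodule.subset_span ⟨j, rfl⟩
  set W : Fin n → Fin m → ℚ := fun j s => b.repr ⟨w j, hwM j⟩ s with hWdef
  have hcoord : ∀ s, ∃ g : K →ₗ[ℚ] ℚ, ∀ j, g (w j) = W j s := by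
    intro s
    obtain ⟨g, hg⟩ := LinearMap.exists_extend (b.coord s)
    refine ⟨g, fun j => ?_⟩
    have h1 := congrArg (fun h : M →ₗ[ℚ] ℚ => h ⟨w j, hwM j⟩) hg
    simpa using h1
  choose g hg using hcoord
  have hexp : ∀ j, w j = ∑ t, (W j t : K) * (b t : K) := by
    intro j
    have h1 := b.sum_repr ⟨w j, hwM j⟩
    have h2 := congrArg (fun x : M => (x : K)) h1
    simp only [Submodule.coe_sum, Submodule.coe_smul] at h2
    rw [← h2]
    refine Finset.sum_congr rfl fun t _ => ?_
    rw [Rat.smul_def]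
  -- the equations
  have heq : ∀ s, ∑ t, ((∑ j ∈ T, (W j s : K) * (W j t : K)) -
      ρ * ∑ j, (W j s : K) * (W j t : K)) * (b t : K) = 0 := by
    intro s
    have h1 := hf (((Rat.castHom K).toAddMonoidHom).comp (g s).toAddMonoidHom)
    simp only [AddMonoidHom.comp_apply, LinearMap.toAddMonoidHom_coe, RingHom.toAddMonoidHom_eq_coe,
      AddMonoidHom.coe_coe, Rat.coe_castHom, hg] at h1
    have h2 : ∀ S : Finset (Fin n), ∑ j ∈ S, w j * (W j s : K) =
        ∑ t, (∑ j ∈ S, (W j s : K) * (W j t : K)) * (b t : K) := by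
      intro S
      simp only [Finset.sum_mul]
      rw [Finset.sum_comm]
      refine Finset.sum_congr rfl fun j _ => ?_
      rw [hexp j, Finset.sum_mul]
      refine Finset.sum_congr rfl fun t _ => by ring
    rw [h2, h2, Finset.mul_sum] at h1
    rw [← sub_eq_zero, ← Finset.sum_sub_distrib] at h1
    rw [← h1]
    refine Finset.sum_congr rfl fun t _ => by ring
  -- the polynomial
  set A : Matrix (Fin m) (Fin m) ℚ[X] := Matrix.of fun s t =>
    C (∑ j ∈ T, W j s * W j t) - X * C (∑ j, W j s * W j t) with hA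
  have hev : ∀ (L : Type) [Field L] [CharZero L] (x : L), aeval x A.det =
      (Matrix.of fun s t : Fin m => (∑ j ∈ T, (W j s : L) * (W j t : L)) -
        x * ∑ j, (W j s : L) * (W j t : L)).det := by
    intro L _ _ x
    rw [AlgHom.map_det]
    congr 1
    ext s t
    simp [hA, AlgHom.mapMatrix_apply]
  have hW : ∀ v : Fin m → ℚ, (∀ j, ∑ s, W j s * v s = 0) → v = 0 := by
    intro v hv
    set ℓ : M →ₗ[ℚ] ℚ := ∑ s, v s • b.coord s with hℓ
    have h1 : ∀ x : M, ℓ x = 0 := by
      rintro ⟨x, hx⟩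
      induction hx using Submodule.span_induction with
      | mem x h =>
        obtain ⟨j, rfl⟩ := h
        have h2 := hv j
        simp only [hℓ, LinearMap.sum_apply, LinearMap.smul_apply, Module.Basis.coord_apply,
          smul_eq_mul]
        rw [← h2]
        refine Finset.sum_congr rfl fun s _ => by rw [hWdef]; ring
      | zero => exact map_zero ℓ
      | add x y hx hy h3 h4 =>
        have h5 := map_add ℓ ⟨x, hx⟩ ⟨y, hy⟩
        rw [h3, h4, add_zero] at h5
        exact h5
      | smul r x hx h3 =>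
        have h5 := map_smul ℓ r ⟨x, hx⟩
        rw [h3, smul_zero] at h5
        exact h5
    funext s
    have h2 := h1 (b s)
    simp only [hℓ, LinearMap.sum_apply, LinearMap.smul_apply, Module.Basis.coord_apply,
      smul_eq_mul, Module.Basis.repr_self] at h2
    rw [Finset.sum_eq_single s] at h2
    · simpa using h2
    · intro t _ hts
      rw [Finsupp.single_apply, if_neg (fun h => hts h.symm), mul_zero]
    · intro h
      exact absurd (Finset.mem_univ s) h
  refine ⟨A.det, ?_, ?_, ?_⟩
  · intro h0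
    have h1 := tnn_pencil T W hW Complex.I (by rw [← hev ℂ Complex.I, h0, map_zero])
    simp at h1
  · rw [hev K ρ]
    refine Matrix.exists_mulVec_eq_zero_iff.1 ⟨fun t => (b t : K), ?_, ?_⟩
    · intro h0
      apply hw0
      funext j
      rw [hexp j]
      simp only [Pi.zero_apply]
      refine Finset.sum_eq_zero fun t _ => ?_
      rw [show ((b t : M) : K) = 0 from congrFun h0 t, mul_zero]
    · funext s
      simp only [Matrix.mulVec, dotProduct, Matrix.of_apply, Pi.zero_apply]
      exact heq s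
  · intro z hz
    rw [hev ℂ z] at hz
    exact tnn_pencil T W hW z hz

end MT
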